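import Mathlib

namespace Pool.Agent.Results.MP_db21b4_co.No
open Finset

/-- the bowtie with centre `0` and triangles `0 1 2`, `0 3 4` -/
def bow : SimpleGraph (Fin 5) :=
  SimpleGraph.fromEdgeSet {s(0, 1), s(0, 2), s(1, 2), s(0, 3), s(0, 4), s(3, 4)}

/-- `o` is an orientation of `G` (`o x y` means the edge is directed from `x` to `y`) -/
def IsOrient {V : Type} (G : SimpleGraph V) (o : V → V → Bool) : Prop :=
  (∀ x y, o x y = true → G.Adj x y) ∧ ∀ x y, G.Adj x y → (o x y = true ↔ ¬ o y x = true)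

/-- `o` contains no (not necessarily induced) copy of the oriented graph `h` -/
def Free {W V : Type} (h : W → W → Bool) (o : V → V → Bool) : Prop :=
  ¬ ∃ f : W → V, Function.Injective f ∧ ∀ x y, h x y = true → o (f x) (f y) = true

/-- the number of `h`-free orientations of `G` -/
noncomputable def DG {W V : Type} (G : SimpleGraph V) (h : W → W → Bool) : ℕ :=
  Nat.card {o : V → V → Bool // IsOrient G o ∧ Free h o}

/-- `D(n, h)` -/
noncomputable def Dn {W : Type} (n : ℕ) (h : W → W → Bool) : ℕ :=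
  ⨆ G : SimpleGraph (Fin n), DG G h

def pid (x y : ℕ) : ℕ := y * (y - 1) / 2 + x

def om (m : ℕ) (x y : ℕ) : Bool :=
  if x < y then m.testBit (pid x y) else if y < x then !m.testBit (pid y x) else false

def dec (o : ℕ → ℕ → Bool) : ℕ :=
  ([(0,1),(0,2),(1,2),(0,3),(1,3),(2,3),(0,4),(1,4),(2,4),(3,4)].map
    fun p : ℕ × ℕ => if o p.1 p.2 then 2 ^ pid p.1 p.2 else 0).sum


def ar (m : ℕ) (b : Bool) (x y : ℕ) : Bool := om m x y == b

def L5 : List ℕ := [0, 1, 2, 3, 4]

lemma memL5 (x : Fin 5) : x.val ∈ L5 := by fin_cases x <;> decide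

def hasB (m : ℕ) : Bool :=
  L5.any fun c => L5.any fun x => om m x c && L5.any fun y => om m y c && om m x y &&
      L5.any fun z => z != x && z != y && om m z c &&
        L5.any fun w => w != x && w != y && om m c w && om m w z

def Sl : List ℕ := [0, 1, 3, 4, 6, 7, 9, 11, 14, 15, 16, 20, 22, 23, 30, 31, 32, 33, 35, 36, 41, 43, 48, 52, 56, 57, 58, 59, 60, 61, 62, 63, 65, 67, 70, 71, 73, 75, 78, 79, 86, 87, 94, 95, 97, 99, 105, 107, 120, 121, 122, 123, 124, 125, 126, 127, 128, 132, 134, 135, 142, 143, 144, 148, 150, 151, 158, 159, 160, 164, 176, 180, 184, 185, 186, 187, 188, 189, 190, 191, 198, 199, 200, 206, 207, 209, 214, 215, 222, 223, 226, 229, 248, 249, 250, 251, 252, 253, 254, 255, 256, 257, 259, 260, 265, 267, 272, 276, 288, 289, 291, 292, 297, 299, 304, 308, 312, 313, 314, 315, 316, 317, 318, 319, 321, 323, 329, 331, 332]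

lemma cnt : Sl.all (fun m => decide (m < 1024) && dec (om m) == m && !hasB m) = true := by
  decide +kernel

lemma Sl_nodup : Sl.Nodup := by decide +kernel

def h0 (x y : Fin 5) : Bool :=
  decide ((x, y) ∈ [((1 : Fin 5), (0 : Fin 5)), (2, 0), (1, 2), (3, 0), (0, 4), (4, 3)])

def eb (b : List Bool) (x y : Fin 5) : Bool :=
  if x < y then b.getD (pid x y) false else if y < x then b.getD (pid y x) false else false

def F5 : List (Fin 5) := [0, 1, 2, 3, 4]

def bw (e : Fin 5 → Fin 5 → Bool) : Bool :=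
  F5.any fun c => F5.any fun x => e c x && F5.any fun y => e c y && e x y &&
    F5.any fun z => e c z && x != z && y != z && F5.any fun w =>
      e c w && e z w && x != w && y != w

lemma ex5 : ∀ b0 b1 b2 b3 b4 b5 b6 b7 b8 b9 : Bool,
    7 < [b0, b1, b2, b3, b4, b5, b6, b7, b8, b9].count true →
    bw (eb [b0, b1, b2, b3, b4, b5, b6, b7, b8, b9]) = true := by
  decide +kernel

lemma ex_le : SimpleGraph.extremalNumber 5 bow ≤ 7 := by
  have := (SimpleGraph.extremalNumber_le_iff (V := Fin 5) bow 7).2 (by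
    intro G _ hG
    by_contra hn
    have e : G.edgeFinset = ({s(0,1), s(0,2), s(1,2), s(0,3), s(1,3), s(2,3), s(0,4), s(1,4),
        s(2,4), s(3,4)} : Finset (Sym2 (Fin 5))).filter (· ∈ G.edgeSet) := by
      ext e
      induction e using Sym2.ind with
      | _ x y =>
        simp only [SimpleGraph.mem_edgeFinset, mem_filter, iff_and_self]
        intro h
        have hne : x ≠ y := G.ne_of_adj h
        revert hne
        fin_cases x <;> fin_cases y <;> decide
    have h := ex5 (G.Adj 0 1) (G.Adj 0 2) (G.Adj 1 2) (G.Adj 0 3) (G.Adj 1 3) (G.Adj 2 3)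
      (G.Adj 0 4) (G.Adj 1 4) (G.Adj 2 4) (G.Adj 3 4) (by
        rw [e, card_filter] at hn
        repeat rw [sum_insert (by decide)] at hn
        simp only [sum_singleton, SimpleGraph.mem_edgeSet] at hn
        simp only [List.count_cons, List.count_nil, beq_iff_eq, decide_eq_true_eq]
        omega)
    have key : ∀ x y : Fin 5, eb [decide (G.Adj 0 1), decide (G.Adj 0 2), decide (G.Adj 1 2),
        decide (G.Adj 0 3), decide (G.Adj 1 3), decide (G.Adj 2 3), decide (G.Adj 0 4),
        decide (G.Adj 1 4), decide (G.Adj 2 4), decide (G.Adj 3 4)] x y = true → G.Adj x y := by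
      intro x y
      fin_cases x <;> fin_cases y <;> simp [eb, pid] <;> exact fun h => h.symm
    simp only [bw, List.any_eq_true, Bool.and_eq_true, bne_iff_ne, ne_eq] at h
    obtain ⟨c, -, x, -, a1, y, -, ⟨a2, a3⟩, z, -, ⟨⟨a4, n1⟩, n3⟩, w, -, ⟨⟨a5, a6⟩, n2⟩, n4⟩ := h
    have a1 := key _ _ a1
    have a2 := key _ _ a2
    have a3 := key _ _ a3
    have a4 := key _ _ a4
    have a5 := key _ _ a5
    have a6 := key _ _ a6
    apply hG
    refine ⟨⟨⟨![c, x, y, z, w], ?_⟩, ?_⟩⟩
    · intro i j hij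
      have b1 := a1.symm
      have b2 := a2.symm
      have b3 := a3.symm
      have b4 := a4.symm
      have b5 := a5.symm
      have b6 := a6.symm
      revert hij
      fin_cases i <;> fin_cases j <;> simp [bow, *]
    · intro i j hij
      have m1 := a1.ne
      have m2 := a2.ne
      have m3 := a3.ne
      have m4 := a4.ne
      have m5 := a5.ne
      have m6 := a6.ne
      revert hij
      fin_cases i <;> fin_cases j <;> simp [*, eq_comm])
  simpa using this

lemma DG_top : 128 < DG (⊤ : SimpleGraph (Fin 5)) h0 := by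
  let S := Sl.toFinset
  have hS : 128 < S.card := by
    rw [List.toFinset_card_of_nodup Sl_nodup]; decide +kernel
  have hm : ∀ m ∈ S, dec (om m) = m ∧ hasB m = false := by
    intro m h
    have := List.all_eq_true.1 cnt m (List.mem_toFinset.1 h)
    simp only [Bool.and_eq_true, beq_iff_eq, Bool.not_eq_true'] at this
    exact ⟨this.1.2, this.2⟩
  have hf : ∀ m ∈ S, IsOrient (⊤ : SimpleGraph (Fin 5)) (fun x y => om m x y) ∧
      Free h0 (fun x y : Fin 5 => om m x y) := by
    intro m h
    refine ⟨⟨?_, ?_⟩, ?_⟩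
    · intro x y h1
      rw [SimpleGraph.top_adj]
      rintro rfl
      simp [om] at h1
    · intro x y h1
      have : x.val ≠ y.val := fun e => h1 (Fin.ext e)
      rcases lt_or_gt_of_ne this with k | k <;> simp [om, k, k.le, not_lt.2 k.le]
    · rintro ⟨f, f1, f2⟩
      have : hasB m = true := by
        simp only [hasB, List.any_eq_true, Bool.and_eq_true, bne_iff_ne, ne_eq]
        have n : ∀ i j : Fin 5, i ≠ j → ¬ (f i).val = (f j).val :=
          fun i j hij e => hij (f1 (Fin.ext e))
        exact ⟨f 0, memL5 _, f 1, memL5 _, f2 1 0 (by decide), f 2, memL5 _,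
          ⟨f2 2 0 (by decide), f2 1 2 (by decide)⟩, f 3, memL5 _,
          ⟨⟨n 3 1 (by decide), n 3 2 (by decide)⟩, f2 3 0 (by decide)⟩, f 4, memL5 _,
          ⟨⟨n 4 1 (by decide), n 4 2 (by decide)⟩, f2 0 4 (by decide)⟩, f2 4 3 (by decide)⟩
      rw [(hm m h).2] at this
      exact absurd this (by simp)
  refine lt_of_lt_of_le hS ?_
  rw [← Fintype.card_coe, ← Nat.card_eq_fintype_card]
  refine Nat.card_le_card_of_injective (fun m : S => ⟨_, hf m.1 m.2⟩) ?_
  intro a b hab
  have e : ∀ x y : Fin 5, om a.1 x y = om b.1 x y := fun x y =>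
    congrFun (congrFun (congrArg Subtype.val hab) x) y
  apply Subtype.ext
  rw [← (hm _ a.2).1, ← (hm _ b.2).1]
  have e01 := e 0 1
  have e02 := e 0 2
  have e12 := e 1 2
  have e03 := e 0 3
  have e13 := e 1 3
  have e23 := e 2 3
  have e04 := e 0 4
  have e14 := e 1 4
  have e24 := e 2 4
  have e34 := e 3 4
  simp only [Fin.isValue, Fin.coe_ofNat_eq_mod, Nat.reduceMod] at e01 e02 e12 e03 e13 e23 e04 e14 e24 e34
  simp only [dec, List.map_cons, List.map_nil, e01, e02, e12, e03, e13, e23, e04, e14, e24, e34]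

lemma h0_or : IsOrient bow h0 := by
  constructor
  · intro x y
    fin_cases x <;> fin_cases y <;> simp [h0, bow]
  · intro x y
    fin_cases x <;> fin_cases y <;> simp [h0, bow]

lemma fin_aux (k a b : ℕ) (h1 : k ≤ 7) (h2 : 128 < a) (h3 : a ≤ b) (h4 : b = 2 ^ k) : False := by
  have : 2 ^ k ≤ 2 ^ 7 := Nat.pow_le_pow_right (by norm_num) h1
  omega

lemma le_Dn (n : ℕ) (h : Fin 5 → Fin 5 → Bool) (G : SimpleGraph (Fin n)) : DG G h ≤ Dn n h :=
  le_ciSup (f := fun G : SimpleGraph (Fin n) => DG G h) (Set.finite_range _).bddAbove G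

theorem result : ¬ ∀ h : Fin 5 → Fin 5 → Bool, IsOrient bow h →
    ((univ.filter fun x => h x 0 = true).card = 3 ∨ (univ.filter fun x => h 0 x = true).card = 3) →
    ∀ n : ℕ, Dn n h = 2 ^ SimpleGraph.extremalNumber n bow := by
  intro H
  have h1 := H h0 h0_or (Or.inl (by decide)) 5
  have h2 := le_Dn 5 h0 ⊤
  exact fin_aux _ _ _ ex_le DG_top h2 h1

end Pool.Agent.Results.MP_db21b4_co.No
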